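import Pool.Agent.NPC.Classes

/-!
# Expressibility of pseudo-Boolean functions by binary submodular functions
-/

namespace Pool.Agent.Q231.EB

open Pool.Agent.NPC

/-- A function `f : {0,1}^n → ℚ` is **submodular** if `f (x ∧ y) + f (x ∨ y) ≤ f x + f y` for all
`x, y`. -/
def Submodular {n : ℕ} (f : (Fin n → Bool) → ℚ) : Prop :=
  ∀ x y, f (x ⊓ y) + f (x ⊔ y) ≤ f x + f y

/-- A function of two Boolean variables is submodular. -/
def Submodular2 (g : Bool → Bool → ℚ) : Prop :=
  ∀ u u' v v', g (u ⊓ u') (v ⊓ v') + g (u ⊔ u') (v ⊔ v') ≤ g u v + g u' v'

/-- A function `g` of two Boolean variables, applied to the pair `(i, j)` of variables. -/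
structure Term (V : Type) where
  /-- the binary function -/
  g : Bool → Bool → ℚ
  /-- the first variable -/
  i : V
  /-- the second variable -/
  j : V

/-- the sum of the binary functions in the list `L`, at the point `x` -/
def total {V : Type} (L : List (Term V)) (x : V → Bool) : ℚ :=
  (L.map fun t => t.g (x t.i) (x t.j)).sum

/-- `f` is **expressible by binary submodular functions**: there are `m` auxiliary Boolean variables
`y` and finitely many binary submodular functions, applied to pairs of variables among the `x_i` and
the `y_j`, such that `f x` is the minimum over `y` of their sum, for all `x`. -/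
def Expressible {n : ℕ} (f : (Fin n → Bool) → ℚ) : Prop :=
  ∃ (m : ℕ) (L : List (Term (Fin n ⊕ Fin m))), (∀ t ∈ L, Submodular2 t.g) ∧
    ∀ x : Fin n → Bool, IsLeast (Set.range fun y : Fin m → Bool => total L (Sum.elim x y)) (f x)

/-- An instance: the number `n` of variables (in unary), and the list of the monomials (given by the
lists of their variables `0, ..., n - 1`) with their coefficients (rational numbers in binary). -/
abbrev Inst : Type := List Unit × List (List ℕ × ℚ)

/-- the number of variables -/
abbrev Inst.n (I : Inst) : ℕ := I.1.length

/-- the monomial with the list `s` of variables, at the point `x` -/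
def monomial {n : ℕ} (s : List ℕ) (x : Fin n → Bool) : ℚ :=
  if ∀ i : Fin n, (i : ℕ) ∈ s → x i = true then 1 else 0

/-- the polynomial given by an instance, as a function on `{0,1}^n` -/
def Inst.f (I : Inst) (x : Fin I.n → Bool) : ℚ := (I.2.map fun p => p.2 * monomial p.1 x).sum

/-- The list of monomials is a well-formed description of a polynomial **of degree 4**: the monomials
are pairwise distinct, each is an increasing list of at most four variables, all coefficients are
nonzero, and one of the monomials has degree four. -/
def Inst.Valid (I : Inst) : Prop :=
  (I.2.map Prod.fst).Nodup ∧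
  (∀ p ∈ I.2, p.1.Pairwise (· < ·) ∧ (∀ i ∈ p.1, i < I.n) ∧ p.1.length ≤ 4 ∧ p.2 ≠ 0) ∧
  ∃ p ∈ I.2, p.1.length = 4

/-- The promise: the instance is a well-formed submodular polynomial of degree 4. -/
def Promise (I : Inst) : Prop := I.Valid ∧ Submodular I.f

/-- The decision problem: a well-formed submodular polynomial of degree 4 that is expressible by
binary submodular functions. -/
def SubmodularExpressible (I : Inst) : Prop := Promise I ∧ Expressible I.f

/-- `coNP`-hardness of the promise problem with promise `Pr` and question `Q`: every language in
`coNP` has a polynomial-time reduction `F` whose values are all codes of instances that satisfy the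
promise, with `x ∈ L` if and only if the answer to the question for `F x` is yes. -/
def PromiseCoNPHard {α : Type} [TEnc α] (Pr Q : α → Prop) : Prop :=
  ∀ L : Set (List Bool), InCoNP L → ∃ F : List Bool → α,
    PolyTime (fun x => bits (F x)) ∧ ∀ x, Pr (F x) ∧ (x ∈ L ↔ Q (F x))

/-- The promise problem is solvable in polynomial time: a polynomial-time algorithm gives the right
answer for all instances that satisfy the promise. -/
def PromiseInP {α : Type} [TEnc α] (Pr Q : α → Prop) : Prop :=
  ∃ V : List Bool → List Bool, PolyTime V ∧ ∀ I, Pr I → (Q I ↔ V (bits I) = [true])

end Pool.Agent.Q231.EB
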