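import Pool.Agent.Q231.EB.Defs

/-!
# Closure properties of the expressible functions
-/

namespace Pool.Agent.Q231.EB

/-- `0` or `1` -/
def v01 (b : Bool) : ℚ := if b = true then 1 else 0

@[simp] theorem v01_true : v01 true = 1 := rfl
@[simp] theorem v01_false : v01 false = 0 := rfl

theorem v01_nonneg (b : Bool) : 0 ≤ v01 b := by cases b <;> simp

theorem v01_le_one (b : Bool) : v01 b ≤ 1 := by cases b <;> simp

theorem v01_and (a b : Bool) : v01 (a && b) = v01 a * v01 b := by
  cases a <;> cases b <;> simp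

theorem submodular2_iff {g : Bool → Bool → ℚ} : Submodular2 g ↔
    g false false + g true true ≤ g false true + g true false := by
  constructor
  · intro h
    simpa using h false true true false
  · intro h u u' v v'
    cases u <;> cases u' <;> cases v <;> cases v' <;> simp <;> linarith

/-- expressibility, for any type of variables and any finite type of auxiliary variables -/
def Expr {V : Type} (f : (V → Bool) → ℚ) : Prop :=
  ∃ (W : Type) (_ : Finite W) (L : List (Term (V ⊕ W))), (∀ t ∈ L, Submodular2 t.g) ∧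
    ∀ x : V → Bool, IsLeast (Set.range fun y : W → Bool => total L (Sum.elim x y)) (f x)

variable {V : Type}

/-- renaming of the variables of a term -/
def Term.ren {U V : Type} (ρ : U → V) (t : Term U) : Term V := ⟨t.g, ρ t.i, ρ t.j⟩

theorem total_ren {U V : Type} (ρ : U → V) (L : List (Term U)) (x : V → Bool) :
    total (L.map (Term.ren ρ)) x = total L (fun u => x (ρ u)) := by
  unfold total
  rw [List.map_map]
  rfl

theorem sub_ren {U V : Type} (ρ : U → V) {L : List (Term U)} (h : ∀ t ∈ L, Submodular2 t.g) :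
    ∀ t ∈ L.map (Term.ren ρ), Submodular2 t.g := by
  intro t ht
  obtain ⟨s, hs, rfl⟩ := List.mem_map.1 ht
  exact h s hs

theorem total_append (L L' : List (Term V)) (x : V → Bool) :
    total (L ++ L') x = total L x + total L' x := by
  unfold total
  rw [List.map_append, List.sum_append]

theorem Expr.congr {f g : (V → Bool) → ℚ} (h : Expr f) (hfg : ∀ x, f x = g x) : Expr g := by
  obtain rfl : f = g := funext hfg
  exact h

/-- sums of binary submodular functions are expressible -/
theorem Expr.total {L : List (Term V)} (hL : ∀ t ∈ L, Submodular2 t.g) : Expr (total L) := by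
  refine ⟨Empty, inferInstance, L.map (Term.ren Sum.inl), sub_ren _ hL, fun x => ?_⟩
  constructor
  · exact ⟨fun e => e.elim, by simp only [total_ren, Sum.elim_inl]⟩
  · rintro _ ⟨y, rfl⟩
    simp only [total_ren, Sum.elim_inl, le_refl]

theorem Expr.term {g : Bool → Bool → ℚ} (hg : Submodular2 g) (i j : V) :
    Expr (fun x : V → Bool => g (x i) (x j)) := by
  refine (Expr.total (L := [⟨g, i, j⟩]) ?_).congr ?_
  · intro t ht
    rw [List.mem_singleton] at ht
    subst ht
    exact hg
  · intro x
    simp [EB.total]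

/-- renaming the variables -/
theorem Expr.ren {U : Type} {f : (U → Bool) → ℚ} (hf : Expr f) (ρ : U → V) :
    Expr (fun x : V → Bool => f (fun u => x (ρ u))) := by
  obtain ⟨W, hW, L, hL, hf⟩ := hf
  refine ⟨W, hW, L.map (Term.ren (Sum.map ρ id)), sub_ren _ hL, fun x => ?_⟩
  have h : ∀ y : W → Bool, EB.total (L.map (Term.ren (Sum.map ρ id))) (Sum.elim x y) =
      EB.total L (Sum.elim (fun u => x (ρ u)) y) := by
    intro y
    rw [total_ren]
    refine congrArg _ (funext fun u => ?_)
    cases u <;> rfl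
  simp only [h]
  exact hf _

theorem Expr.zero : Expr (fun _ : V → Bool => (0 : ℚ)) :=
  (Expr.total (L := []) (by simp)).congr fun x => by simp [EB.total]

theorem Expr.add {f g : (V → Bool) → ℚ} (hf : Expr f) (hg : Expr g) :
    Expr (fun x => f x + g x) := by
  obtain ⟨W, hW, L, hL, hf⟩ := hf
  obtain ⟨W', hW', L', hL', hg⟩ := hg
  refine ⟨W ⊕ W', inferInstance, L.map (Term.ren (Sum.map id Sum.inl)) ++
    L'.map (Term.ren (Sum.map id Sum.inr)), ?_, fun x => ?_⟩
  · intro t ht
    rw [List.mem_append] at ht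
    rcases ht with ht | ht
    · exact sub_ren _ hL t ht
    · exact sub_ren _ hL' t ht
  · have h : ∀ y : W ⊕ W' → Bool, EB.total (L.map (Term.ren (Sum.map id Sum.inl)) ++
        L'.map (Term.ren (Sum.map id Sum.inr))) (Sum.elim x y) =
        EB.total L (Sum.elim x (fun w => y (Sum.inl w))) +
        EB.total L' (Sum.elim x (fun w => y (Sum.inr w))) := by
      intro y
      rw [total_append, total_ren, total_ren]
      refine congrArg₂ _ (congrArg _ (funext fun u => ?_)) (congrArg _ (funext fun u => ?_))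
      · cases u <;> rfl
      · cases u <;> rfl
    constructor
    · obtain ⟨y, hy⟩ := (hf x).1
      obtain ⟨y', hy'⟩ := (hg x).1
      refine ⟨Sum.elim y y', ?_⟩
      simp only [h, Sum.elim_inl, Sum.elim_inr]
      simp only at hy hy'
      rw [hy, hy']
    · rintro _ ⟨y, rfl⟩
      simp only [h]
      exact add_le_add ((hf x).2 ⟨_, rfl⟩) ((hg x).2 ⟨_, rfl⟩)

/-- minimising over a finite set of variables -/
theorem Expr.proj {Z : Type} [Finite Z] {F : (V ⊕ Z → Bool) → ℚ} (hF : Expr F)
    {f : (V → Bool) → ℚ}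
    (hf : ∀ x, IsLeast (Set.range fun z : Z → Bool => F (Sum.elim x z)) (f x)) : Expr f := by
  obtain ⟨W, hW, L, hL, hF⟩ := hF
  refine ⟨Z ⊕ W, inferInstance, L.map (Term.ren (Equiv.sumAssoc V Z W)), sub_ren _ hL,
    fun x => ?_⟩
  have h : ∀ y : Z ⊕ W → Bool, EB.total (L.map (Term.ren (Equiv.sumAssoc V Z W)))
      (Sum.elim x y) = EB.total L (Sum.elim (Sum.elim x (fun z => y (Sum.inl z)))
        (fun w => y (Sum.inr w))) := by
    intro y
    rw [total_ren]
    refine congrArg _ (funext fun u => ?_)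
    rcases u with (u | u) | u <;> rfl
  constructor
  · obtain ⟨z, hz⟩ := (hf x).1
    obtain ⟨y, hy⟩ := (hF (Sum.elim x z)).1
    refine ⟨Sum.elim z y, ?_⟩
    simp only [h, Sum.elim_inl, Sum.elim_inr]
    simp only at hz hy
    rw [hy, hz]
  · rintro _ ⟨y, rfl⟩
    simp only [h]
    exact ((hf x).2 ⟨_, rfl⟩).trans ((hF _).2 ⟨_, rfl⟩)

theorem Expr.sum {ι : Type} (s : Finset ι) {f : ι → (V → Bool) → ℚ} (h : ∀ i ∈ s, Expr (f i)) :
    Expr (fun x => ∑ i ∈ s, f i x) := by
  classical
  induction s using Finset.induction_on with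
  | empty => simpa using Expr.zero
  | insert a s ha ih =>
    have h1 := (h a (Finset.mem_insert_self _ _)).add
      (ih fun i hi => h i (Finset.mem_insert_of_mem hi))
    exact h1.congr fun x => by rw [Finset.sum_insert ha]

/-- linear functions -/
theorem Expr.linear (c : ℚ) (i : V) : Expr (fun x : V → Bool => c * v01 (x i)) :=
  (Expr.term (g := fun a _ => c * v01 a) (submodular2_iff.2 (by simp)) i i)

/-- constants -/
theorem Expr.const [Nonempty V] (c : ℚ) : Expr (fun _ : V → Bool => c) :=
  (Expr.term (g := fun _ _ => c) (submodular2_iff.2 (by simp)) (Classical.arbitrary V)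
    (Classical.arbitrary V))

/-- negative products -/
theorem Expr.negProd {c : ℚ} (hc : 0 ≤ c) (i j : V) :
    Expr (fun x : V → Bool => -(c * (v01 (x i) * v01 (x j)))) :=
  (Expr.term (g := fun a b => -(c * (v01 a * v01 b))) (submodular2_iff.2 (by simpa using hc)) i j)

/-- nonnegative multiples -/
theorem Expr.smul {f : (V → Bool) → ℚ} (hf : Expr f) {c : ℚ} (hc : 0 ≤ c) :
    Expr (fun x => c * f x) := by
  obtain ⟨W, hW, L, hL, hf⟩ := hf
  have h : ∀ z : V ⊕ W → Bool, EB.total (L.map fun t => (⟨fun a b => c * t.g a b, t.i, t.j⟩ :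
      Term (V ⊕ W))) z = c * EB.total L z := by
    intro z
    unfold EB.total
    rw [List.map_map, ← List.sum_map_mul_left]
    rfl
  refine ⟨W, hW, L.map fun t => ⟨fun a b => c * t.g a b, t.i, t.j⟩, ?_, fun x => ?_⟩
  · intro t ht
    obtain ⟨s, hs, rfl⟩ := List.mem_map.1 ht
    have := submodular2_iff.1 (hL s hs)
    rw [submodular2_iff]
    simp only
    rw [← mul_add, ← mul_add]
    exact mul_le_mul_of_nonneg_left this hc
  · constructor
    · obtain ⟨y, hy⟩ := (hf x).1
      exact ⟨y, by simp only [h]; simp only at hy; rw [hy]⟩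
    · rintro _ ⟨y, rfl⟩
      simp only [h]
      exact mul_le_mul_of_nonneg_left ((hf x).2 ⟨_, rfl⟩) hc

/-- `Expr` implies submodularity. -/
theorem Expr.submodular {f : (V → Bool) → ℚ} (hf : Expr f) (x y : V → Bool) :
    f (x ⊓ y) + f (x ⊔ y) ≤ f x + f y := by
  obtain ⟨W, hW, L, hL, hf⟩ := hf
  have h : ∀ z z' : V ⊕ W → Bool, EB.total L (z ⊓ z') + EB.total L (z ⊔ z') ≤
      EB.total L z + EB.total L z' := by
    intro z z'
    unfold EB.total
    rw [← List.sum_map_add, ← List.sum_map_add]
    refine List.sum_le_sum fun t ht => ?_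
    exact hL t ht _ _ _ _
  obtain ⟨u, hu⟩ := (hf x).1
  obtain ⟨v, hv⟩ := (hf y).1
  simp only at hu hv
  rw [← hu, ← hv]
  refine le_trans ?_ (h _ _)
  have h1 : Sum.elim x u ⊓ Sum.elim y v = Sum.elim (x ⊓ y) (u ⊓ v) := by
    funext i
    cases i <;> rfl
  have h2 : Sum.elim x u ⊔ Sum.elim y v = Sum.elim (x ⊔ y) (u ⊔ v) := by
    funext i
    cases i <;> rfl
  rw [h1, h2]
  exact add_le_add ((hf _).2 ⟨_, rfl⟩) ((hf _).2 ⟨_, rfl⟩)

theorem Expr.expressible {n : ℕ} {f : (Fin n → Bool) → ℚ} (hf : Expr f) : Expressible f := by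
  obtain ⟨W, hW, L, hL, hf⟩ := hf
  obtain ⟨m, ⟨e⟩⟩ := Finite.exists_equiv_fin W
  refine ⟨m, L.map (Term.ren (Sum.map id e)), sub_ren _ hL, fun x => ?_⟩
  have h : ∀ y : Fin m → Bool, EB.total (L.map (Term.ren (Sum.map id e))) (Sum.elim x y) =
      EB.total L (Sum.elim x (fun w => y (e w))) := by
    intro y
    rw [total_ren]
    refine congrArg _ (funext fun u => ?_)
    cases u <;> rfl
  constructor
  · obtain ⟨y, hy⟩ := (hf x).1
    refine ⟨fun i => y (e.symm i), ?_⟩
    simp only [h, Equiv.symm_apply_apply]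
    exact hy
  · rintro _ ⟨y, rfl⟩
    simp only [h]
    exact (hf x).2 ⟨_, rfl⟩

/-- negative monomials -/
theorem Expr.negMono {ι : Type} (s : Finset ι) (v : ι → V) (hs : s.Nonempty) :
    Expr (fun x : V → Bool => -∏ i ∈ s, v01 (x (v i))) := by
  classical
  have h1 : Expr (fun x : V ⊕ Unit → Bool =>
      (s.card - 1 : ℚ) * v01 (x (Sum.inr ())) +
        ∑ i ∈ s, -(1 * (v01 (x (Sum.inr ())) * v01 (x (Sum.inl (v i)))))) :=
    (Expr.linear _ _).add (Expr.sum s fun i _ => Expr.negProd zero_le_one _ _)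
  refine h1.proj fun x => ?_
  have h2 : ∑ i ∈ s, v01 (x (v i)) ≤ s.card - 1 + ∏ i ∈ s, v01 (x (v i)) := by
    by_cases h : ∀ i ∈ s, x (v i) = true
    · rw [Finset.sum_congr rfl fun i hi => by rw [h i hi], Finset.prod_congr rfl fun i hi => by
        rw [h i hi]]
      simp
    · push Not at h
      obtain ⟨j, hj, hj'⟩ := h
      have hj2 : x (v j) = false := by simpa using hj'
      rw [Finset.prod_eq_zero hj (by rw [hj2]; rfl), add_zero, ← Finset.add_sum_erase _ _ hj, hj2,
        v01_false, zero_add]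
      have h3 : ∑ i ∈ s.erase j, v01 (x (v i)) ≤ ∑ i ∈ s.erase j, (1 : ℚ) :=
        Finset.sum_le_sum fun i _ => v01_le_one _
      rw [Finset.sum_const, Finset.card_erase_of_mem hj, nsmul_eq_mul, mul_one, Nat.cast_sub
        (Finset.card_pos.2 hs), Nat.cast_one] at h3
      exact h3
  have h4 : 0 ≤ ∏ i ∈ s, v01 (x (v i)) := Finset.prod_nonneg fun i _ => v01_nonneg _
  constructor
  · by_cases h : ∀ i ∈ s, x (v i) = true
    · refine ⟨fun _ => true, ?_⟩
      simp only [Sum.elim_inr, Sum.elim_inl, v01_true, one_mul, mul_one]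
      rw [Finset.sum_neg_distrib, Finset.sum_congr rfl fun i hi => by rw [h i hi],
        Finset.prod_congr rfl fun i hi => by rw [h i hi]]
      simp only [v01_true, Finset.sum_const, nsmul_eq_mul, mul_one, Finset.prod_const_one]
      ring
    · push Not at h
      obtain ⟨j, hj, hj'⟩ := h
      have hj2 : x (v j) = false := by simpa using hj'
      refine ⟨fun _ => false, ?_⟩
      simp only [Sum.elim_inr, Sum.elim_inl, v01_false, mul_zero, zero_mul, neg_zero,
        Finset.sum_const_zero, add_zero]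
      rw [Finset.prod_eq_zero hj (by rw [hj2]; rfl), neg_zero]
  · rintro _ ⟨y, rfl⟩
    simp only [Sum.elim_inr, Sum.elim_inl, Finset.sum_neg_distrib, one_mul, ← Finset.mul_sum]
    cases y ()
    · simp only [v01_false, mul_zero, zero_mul, neg_zero, add_zero]
      linarith
    · simp only [v01_true, mul_one, one_mul]
      linarith

/-- the cubic `abc - ab - bc - ca` -/
theorem Expr.cubic (a b c : V) : Expr (fun x : V → Bool => v01 (x a) * v01 (x b) * v01 (x c) -
    (v01 (x a) * v01 (x b) + v01 (x b) * v01 (x c) + v01 (x a) * v01 (x c))) := by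
  have h1 : Expr (fun x : V ⊕ Unit → Bool =>
      1 * v01 (x (Sum.inr ())) + -(1 * (v01 (x (Sum.inr ())) * v01 (x (Sum.inl a)))) +
        -(1 * (v01 (x (Sum.inr ())) * v01 (x (Sum.inl b)))) +
        -(1 * (v01 (x (Sum.inr ())) * v01 (x (Sum.inl c))))) :=
    (((Expr.linear _ _).add (Expr.negProd zero_le_one _ _)).add
      (Expr.negProd zero_le_one _ _)).add (Expr.negProd zero_le_one _ _)
  refine h1.proj fun x => ?_
  simp only [Sum.elim_inr, Sum.elim_inl]
  constructor
  · refine ⟨fun _ => (x a && x b) || (x b && x c) || (x a && x c), ?_⟩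
    simp only
    cases x a <;> cases x b <;> cases x c <;> norm_num [v01]
  · rintro _ ⟨y, rfl⟩
    simp only
    cases x a <;> cases x b <;> cases x c <;> cases y () <;> norm_num [v01]

end Pool.Agent.Q231.EB
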