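import Pool.Agent.Q231.EB.Expr

/-!
# A five-point inequality for expressible functions
-/

namespace Pool.Agent.Q231.EB

/-- the table of the map on columns of length five -/
def tab : List ℕ := [0, 8, 8, 24, 8, 24, 12, 28, 16, 24, 24, 25, 24, 28, 28, 29, 16, 24, 24, 28, 24,
  26, 28, 30, 20, 28, 28, 29, 28, 30, 29, 31]

/-- the value of the table at a column -/
def look (a b c d e : Bool) : ℕ :=
  tab.getD (a.toNat + 2 * b.toNat + 4 * c.toNat + 8 * d.toNat + 16 * e.toNat) 0

theorem look_card : ∀ a b c d e : Bool, ((look a b c d e).testBit 0).toNat +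
    ((look a b c d e).testBit 1).toNat + ((look a b c d e).testBit 2).toNat +
    ((look a b c d e).testBit 3).toNat + ((look a b c d e).testBit 4).toNat =
    a.toNat + b.toNat + c.toNat + d.toNat + e.toNat := by
  decide

set_option maxRecDepth 100000 in
theorem look_inter : ∀ a b c d e a' b' c' d' e' : Bool,
    (a && a').toNat + (b && b').toNat + (c && c').toNat + (d && d').toNat + (e && e').toNat ≤
    ((look a b c d e).testBit 0 && (look a' b' c' d' e').testBit 0).toNat +
    ((look a b c d e).testBit 1 && (look a' b' c' d' e').testBit 1).toNat +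
    ((look a b c d e).testBit 2 && (look a' b' c' d' e').testBit 2).toNat +
    ((look a b c d e).testBit 3 && (look a' b' c' d' e').testBit 3).toNat +
    ((look a b c d e).testBit 4 && (look a' b' c' d' e').testBit 4).toNat := by
  decide

/-- the map on columns -/
def col (u : Fin 5 → Bool) (k : Fin 5) : Bool := (look (u 0) (u 1) (u 2) (u 3) (u 4)).testBit k

theorem v01_eq (b : Bool) : v01 b = (b.toNat : ℚ) := by cases b <;> simp

theorem col_card (u : Fin 5 → Bool) : ∑ k, v01 (col u k) = ∑ k, v01 (u k) := by
  simp only [v01_eq]
  rw [Fin.sum_univ_five, Fin.sum_univ_five]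
  exact_mod_cast look_card (u 0) (u 1) (u 2) (u 3) (u 4)

theorem col_inter (u v : Fin 5 → Bool) : ∑ k, v01 (u k) * v01 (v k) ≤
    ∑ k, v01 (col u k) * v01 (col v k) := by
  simp only [← v01_and]
  simp only [v01_eq]
  rw [Fin.sum_univ_five, Fin.sum_univ_five]
  exact_mod_cast look_inter (u 0) (u 1) (u 2) (u 3) (u 4) (v 0) (v 1) (v 2) (v 3) (v 4)

theorem five_binary {g : Bool → Bool → ℚ} (hg : Submodular2 g) (u v : Fin 5 → Bool) :
    ∑ k, g (col u k) (col v k) ≤ ∑ k, g (u k) (v k) := by
  have h := submodular2_iff.1 hg
  have key : ∀ s t, g s t = g false false + (g true false - g false false) * v01 s +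
      (g false true - g false false) * v01 t -
      (g false true + g true false - g false false - g true true) * (v01 s * v01 t) := by
    intro s t
    cases s <;> cases t <;> simp <;> ring
  have e : ∀ a b : Fin 5 → Bool, ∑ k, g (a k) (b k) = 5 * g false false +
      (g true false - g false false) * ∑ k, v01 (a k) +
      (g false true - g false false) * ∑ k, v01 (b k) -
      (g false true + g true false - g false false - g true true) *
        ∑ k, v01 (a k) * v01 (b k) := by
    intro a b
    rw [Finset.sum_congr rfl fun k _ => key (a k) (b k), Finset.sum_sub_distrib,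
      Finset.sum_add_distrib, Finset.sum_add_distrib, ← Finset.mul_sum, ← Finset.mul_sum,
      ← Finset.mul_sum]
    simp
  rw [e, e, col_card, col_card]
  have h1 := mul_le_mul_of_nonneg_left (col_inter u v)
    (show 0 ≤ g false true + g true false - g false false - g true true by linarith)
  linarith

theorem five_total {V : Type} {L : List (Term V)} (hL : ∀ t ∈ L, Submodular2 t.g)
    (z : Fin 5 → V → Bool) :
    ∑ k, total L (fun i => col (fun j => z j i) k) ≤ ∑ k, total L (z k) := by
  induction L with
  | nil => simp [total]
  | cons t L ih =>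
    have h1 := ih fun t ht => hL t (List.mem_cons_of_mem _ ht)
    have h2 := five_binary (hL t List.mem_cons_self) (fun j => z j t.i) (fun j => z j t.j)
    have h3 : ∀ x : V → Bool, total (t :: L) x = t.g (x t.i) (x t.j) + total L x := fun x => by
      simp [total]
    simp only [h3]
    rw [Finset.sum_add_distrib, Finset.sum_add_distrib]
    exact add_le_add h2 h1

/-- **The five-point inequality** -/
theorem five {n : ℕ} {f : (Fin n → Bool) → ℚ} (hf : Expressible f) (x : Fin 5 → Fin n → Bool) :
    ∑ k, f (fun i => col (fun j => x j i) k) ≤ ∑ k, f (x k) := by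
  obtain ⟨m, L, hL, hf⟩ := hf
  choose y hy using fun k => (hf (x k)).1
  simp only at hy
  rw [Finset.sum_congr rfl fun k _ => (hy k).symm]
  refine le_trans ?_ (five_total hL _)
  refine Finset.sum_le_sum fun k _ => ?_
  have h1 : (fun i => col (fun j => Sum.elim (x j) (y j) i) k) =
      Sum.elim (fun i => col (fun j => x j i) k) (fun i => col (fun j => y j i) k) := by
    funext i
    cases i <;> rfl
  rw [h1]
  exact (hf _).2 ⟨_, rfl⟩

end Pool.Agent.Q231.EB
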