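import Pool.Agent.Q231.EB.Main
import Pool.Agent.Q231.EB.Five

/-!
# The polynomials of the reduction
-/

namespace Pool.Agent.Q231.EB

/-- merging the repeated monomials of a list -/
def collect (R : List (List ℕ × ℤ)) : List (List ℕ × ℚ) :=
  (((R.map Prod.fst).dedup.map fun s =>
    (s, ((R.filter fun p => decide (p.1 = s)).map Prod.snd).sum)).filter
      fun p => !decide (p.2 = 0)).map fun p => (p.1, (p.2 : ℚ))

theorem sum_filter_ne (L : List (List ℕ × ℤ)) (g : List ℕ → ℚ) :
    ((L.filter fun p => !decide (p.2 = 0)).map fun p => (p.2 : ℚ) * g p.1).sum =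
      (L.map fun p => (p.2 : ℚ) * g p.1).sum := by
  induction L with
  | nil => rfl
  | cons p L ih =>
    rw [List.filter_cons]
    by_cases h : p.2 = 0
    · simp [h, ih]
    · simp [h, ih]

theorem sum_group (D : List (List ℕ)) (hD : D.Nodup) (g : List ℕ → ℚ) :
    ∀ R : List (List ℕ × ℤ), (∀ p ∈ R, p.1 ∈ D) →
    (D.map fun s => ((((R.filter fun p => decide (p.1 = s)).map Prod.snd).sum : ℤ) : ℚ) * g s).sum =
      (R.map fun p => (p.2 : ℚ) * g p.1).sum
  | [], _ => by simp
  | p :: R, h => by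
    have ih := sum_group D hD g R fun q hq => h q (List.mem_cons_of_mem _ hq)
    have hp := h p List.mem_cons_self
    rw [List.map_cons, List.sum_cons, ← ih]
    have h1 : ∀ s, ((((((p :: R).filter fun p => decide (p.1 = s)).map Prod.snd).sum : ℤ) : ℚ) *
        g s) = (if s = p.1 then (p.2 : ℚ) * g p.1 else 0) +
        ((((R.filter fun p => decide (p.1 = s)).map Prod.snd).sum : ℤ) : ℚ) * g s := by
      intro s
      rw [List.filter_cons]
      by_cases hs : p.1 = s
      · subst hs
        simp [add_mul]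
      · have hs' : ¬ s = p.1 := fun h => hs h.symm
        simp [hs, hs']
    rw [List.map_congr_left fun s _ => h1 s, List.sum_map_add]
    congr 1
    rw [← List.sum_toFinset _ hD, Finset.sum_ite_eq' , if_pos (List.mem_toFinset.2 hp)]

theorem sum_collect (R : List (List ℕ × ℤ)) (g : List ℕ → ℚ) :
    ((collect R).map fun p => p.2 * g p.1).sum = (R.map fun p => (p.2 : ℚ) * g p.1).sum := by
  unfold collect
  rw [List.map_map]
  have h1 := sum_filter_ne ((R.map Prod.fst).dedup.map fun s =>
    (s, ((R.filter fun p => decide (p.1 = s)).map Prod.snd).sum)) g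
  simp only [Function.comp_def]
  rw [h1, List.map_map, ← sum_group (R.map Prod.fst).dedup (List.nodup_dedup _) g R]
  · rfl
  · intro p hp
    rw [List.mem_dedup]
    exact List.mem_map_of_mem hp

theorem mem_collect {R : List (List ℕ × ℤ)} {p : List ℕ × ℚ} : p ∈ collect R ↔
    (∃ e ∈ R, e.1 = p.1) ∧
    p.2 = ((((R.filter fun e => decide (e.1 = p.1)).map Prod.snd).sum : ℤ) : ℚ) ∧ p.2 ≠ 0 := by
  unfold collect
  rw [List.mem_map]
  constructor
  · rintro ⟨e, he, rfl⟩
    rw [List.mem_filter, List.mem_map] at he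
    obtain ⟨⟨s, hs, rfl⟩, h2⟩ := he
    rw [List.mem_dedup, List.mem_map] at hs
    refine ⟨hs, rfl, ?_⟩
    rw [Bool.not_eq_true', decide_eq_false_iff_not] at h2
    exact Int.cast_ne_zero.2 h2
  · rintro ⟨h1, h2, h3⟩
    refine ⟨(p.1, ((R.filter fun e => decide (e.1 = p.1)).map Prod.snd).sum), ?_, ?_⟩
    · rw [List.mem_filter, List.mem_map]
      refine ⟨⟨p.1, ?_, rfl⟩, ?_⟩
      · rw [List.mem_dedup, List.mem_map]
        exact h1
      · rw [h2] at h3
        rw [Bool.not_eq_true', decide_eq_false_iff_not]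
        exact Int.cast_ne_zero.1 h3
    · exact Prod.ext rfl h2.symm

theorem collect_nodup (R : List (List ℕ × ℤ)) : ((collect R).map Prod.fst).Nodup := by
  unfold collect
  rw [List.map_map]
  have h1 : ((R.map Prod.fst).dedup.map fun s =>
      (s, ((R.filter fun p => decide (p.1 = s)).map Prod.snd).sum)).map Prod.fst =
      (R.map Prod.fst).dedup := by
    rw [List.map_map]
    exact List.map_id' _
  refine List.Nodup.sublist (List.Sublist.map _ List.filter_sublist) ?_
  change (List.map Prod.fst _).Nodup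
  rw [h1]
  exact List.nodup_dedup _

/-! ### the instance -/

/-- the list of the occurrences of variables -/
def vars (φ : List (ℕ × ℕ × ℕ)) : List ℕ := φ.flatMap fun t => [t.1, t.2.1, t.2.2]

/-- the index of the variable of the polynomial for `v` -/
def ix (φ : List (ℕ × ℕ × ℕ)) (v : ℕ) : ℕ := (vars φ).idxOf v + 4

/-- the product of two variables -/
def pm (p q : ℕ) : List ℕ := if p < q then [p, q] else if q < p then [q, p] else [p]

/-- the product of `ab` and the polynomial of a clause -/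
def clauseTerms (p q r : ℕ) : List (List ℕ × ℤ) :=
  [([0, 1, p], 1), ([0, 1, q], 1), ([0, 1, r], 1), (0 :: 1 :: pm p q, -1), (0 :: 1 :: pm q r, -1),
    (0 :: 1 :: pm p r, -1)]

/-- the gadget, `m` is the number of clauses -/
def gadgetTerms (m : ℕ) : List (List ℕ × ℤ) :=
  [([0, 1], -((m + 1 : ℕ) : ℤ)), ([0, 1, 2], 1), ([0, 1, 3], 1), ([0, 1, 2, 3], -1), ([0, 2], -1),
    ([0, 3], -1), ([1, 2], -1), ([1, 3], -1)]

/-- the penalty terms -/
def quadTerms (n : ℕ) (M : ℤ) : List (List ℕ × ℤ) :=
  (List.range n).flatMap fun j => ([0, j + 4], M) :: ([1, j + 4], M) ::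
    ((List.range n).filter fun i => decide (i < j)).map fun i => ([i + 4, j + 4], M)

/-- the large number -/
def bigM (φ : List (ℕ × ℕ × ℕ)) : ℕ :=
  φ.length * 2 ^ (((vars φ).length + 3) * ((vars φ).length + 3))

/-- all terms -/
def raw (φ : List (ℕ × ℕ × ℕ)) : List (List ℕ × ℤ) :=
  (φ.flatMap fun t => clauseTerms (ix φ t.1) (ix φ t.2.1) (ix φ t.2.2)) ++
    (gadgetTerms φ.length ++ quadTerms (vars φ).length (-((bigM φ : ℕ) : ℤ)))

/-- the instance -/
def inst (φ : List (ℕ × ℕ × ℕ)) : Inst :=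
  (List.replicate ((vars φ).length + 4) (), collect (raw φ))

theorem inst_n (φ : List (ℕ × ℕ × ℕ)) : (inst φ).n = (vars φ).length + 4 := by simp [inst, Inst.n]

/-! ### validity -/

theorem ix_lt {φ : List (ℕ × ℕ × ℕ)} {v : ℕ} (hv : v ∈ vars φ) : ix φ v < (vars φ).length + 4 := by
  unfold ix
  have := List.idxOf_lt_length_iff.2 hv
  omega

theorem four_le_ix (φ : List (ℕ × ℕ × ℕ)) (v : ℕ) : 4 ≤ ix φ v := by
  unfold ix
  omega

theorem mem_vars {φ : List (ℕ × ℕ × ℕ)} {t : ℕ × ℕ × ℕ} (ht : t ∈ φ) :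
    t.1 ∈ vars φ ∧ t.2.1 ∈ vars φ ∧ t.2.2 ∈ vars φ := by
  unfold vars
  simp only [List.mem_flatMap]
  exact ⟨⟨t, ht, by simp⟩, ⟨t, ht, by simp⟩, ⟨t, ht, by simp⟩⟩

/-- a good term -/
def GoodTerm (n : ℕ) (e : List ℕ × ℤ) : Prop :=
  e.1.Pairwise (· < ·) ∧ (∀ i ∈ e.1, i < n) ∧ e.1.length ≤ 4 ∧ (e.1.length = 4 → e.2 = -1)

theorem good_pm {n p q : ℕ} (hp : 4 ≤ p) (hq : 4 ≤ q) (hp' : p < n) (hq' : q < n) :
    GoodTerm n (0 :: 1 :: pm p q, -1) := by
  unfold pm GoodTerm
  split_ifs with h1 h2
  · refine ⟨?_, ?_, by simp, by simp⟩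
    · simp
      omega
    · simp
      omega
  · refine ⟨?_, ?_, by simp, by simp⟩
    · simp
      omega
    · simp
      omega
  · refine ⟨?_, ?_, by simp, by simp⟩
    · simp
      omega
    · simp
      omega

theorem good_three {n p : ℕ} (hp : 4 ≤ p) (hp' : p < n) (c : ℤ) :
    GoodTerm n ([0, 1, p], c) := by
  refine ⟨?_, ?_, by simp, by simp⟩
  · simp
    omega
  · simp
    omega

theorem good_two {n i j : ℕ} (h : i < j) (hj : j < n) (c : ℤ) : GoodTerm n ([i, j], c) := by
  refine ⟨?_, ?_, by simp, by simp⟩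
  · simpa using h
  · simp
    omega

theorem good_raw {φ : List (ℕ × ℕ × ℕ)} {e : List ℕ × ℤ} (he : e ∈ raw φ) :
    GoodTerm ((vars φ).length + 4) e := by
  unfold raw at he
  rw [List.mem_append, List.mem_append] at he
  rcases he with he | he | he
  · rw [List.mem_flatMap] at he
    obtain ⟨t, ht, he⟩ := he
    obtain ⟨h1, h2, h3⟩ := mem_vars ht
    have a1 := four_le_ix φ t.1
    have a2 := four_le_ix φ t.2.1
    have a3 := four_le_ix φ t.2.2
    have b1 := ix_lt h1
    have b2 := ix_lt h2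
    have b3 := ix_lt h3
    simp only [clauseTerms, List.mem_cons, List.not_mem_nil, or_false] at he
    rcases he with rfl | rfl | rfl | rfl | rfl | rfl
    · exact good_three a1 b1 _
    · exact good_three a2 b2 _
    · exact good_three a3 b3 _
    · exact good_pm a1 a2 b1 b2
    · exact good_pm a2 a3 b2 b3
    · exact good_pm a1 a3 b1 b3
  · simp only [gadgetTerms, List.mem_cons, List.not_mem_nil, or_false] at he
    unfold GoodTerm
    rcases he with rfl | rfl | rfl | rfl | rfl | rfl | rfl | rfl <;>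
      refine ⟨by simp, ?_, by simp, by simp⟩ <;> intro i hi <;> simp at hi <;> omega
  · simp only [quadTerms, List.mem_flatMap, List.mem_cons, List.mem_map, List.mem_filter,
      List.mem_range, decide_eq_true_eq] at he
    obtain ⟨j, hj, rfl | rfl | ⟨i, ⟨hi, hij⟩, rfl⟩⟩ := he
    · exact good_two (by omega) (by omega) _
    · exact good_two (by omega) (by omega) _
    · exact good_two (by omega) (by omega) _

theorem valid (φ : List (ℕ × ℕ × ℕ)) : (inst φ).Valid := by
  refine ⟨collect_nodup _, ?_, ?_⟩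
  · intro p hp
    obtain ⟨⟨e, he, hep⟩, _, h0⟩ := mem_collect.1 (show p ∈ collect (raw φ) from hp)
    obtain ⟨h1, h2, h3, _⟩ := good_raw he
    rw [hep] at h1 h2 h3
    exact ⟨h1, by rwa [inst_n], h3, h0⟩
  · have h1 : (([0, 1, 2, 3] : List ℕ), (-1 : ℤ)) ∈ raw φ := by
      unfold raw
      rw [List.mem_append, List.mem_append]
      right
      left
      simp [gadgetTerms]
    have h2 : ∀ L : List (List ℕ × ℤ), (∀ e ∈ L, e.2 = -1) → (L.map Prod.snd).sum =
        -(L.length : ℤ) := by
      intro L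
      induction L with
      | nil => simp
      | cons e L ih =>
        intro h
        rw [List.map_cons, List.sum_cons, ih fun e he => h e (List.mem_cons_of_mem _ he),
          h e List.mem_cons_self, List.length_cons]
        push_cast
        ring
    set L := (raw φ).filter fun e => decide (e.1 = [0, 1, 2, 3]) with hL
    have h3 : (L.map Prod.snd).sum = -(L.length : ℤ) := by
      refine h2 _ fun e he => ?_
      rw [hL, List.mem_filter] at he
      have h4 : e.1 = [0, 1, 2, 3] := by simpa using he.2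
      exact (good_raw he.1).2.2.2 (by rw [h4]; rfl)
    have h4 : 0 < L.length := by
      refine List.length_pos_of_mem (a := (([0, 1, 2, 3] : List ℕ), (-1 : ℤ))) ?_
      rw [hL, List.mem_filter]
      exact ⟨h1, by simp⟩
    refine ⟨([0, 1, 2, 3], (((L.map Prod.snd).sum : ℤ) : ℚ)), ?_, rfl⟩
    change _ ∈ collect (raw φ)
    rw [mem_collect]
    refine ⟨⟨_, h1, rfl⟩, rfl, ?_⟩
    rw [h3]
    simp only [ne_eq]
    intro h5
    have h6 : -(L.length : ℤ) = 0 := by exact_mod_cast h5
    omega

end Pool.Agent.Q231.EB
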