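import Pool.Agent.Q231.EB.Expr

/-!
# Adding a large negative quadratic form makes a function expressible
-/

namespace Pool.Agent.Q231.EB

variable {V : Type}

/-- the number of ones of `x` in the list `Z` -/
def ones (Z : List V) (x : V → Bool) : ℚ := (Z.map fun z => v01 (x z)).sum

@[simp] theorem ones_nil (x : V → Bool) : ones [] x = 0 := rfl

@[simp] theorem ones_cons (z : V) (Z : List V) (x : V → Bool) :
    ones (z :: Z) x = v01 (x z) + ones Z x := by simp [ones]

theorem ones_nonneg (Z : List V) (x : V → Bool) : 0 ≤ ones Z x := by
  induction Z with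
  | nil => simp
  | cons z Z ih =>
    rw [ones_cons]
    have := v01_nonneg (x z)
    linarith

theorem ones_le (Z : List V) (x : V → Bool) : ones Z x ≤ Z.length := by
  induction Z with
  | nil => simp
  | cons z Z ih =>
    rw [ones_cons, List.length_cons]
    have := v01_le_one (x z)
    push_cast
    linarith

theorem Expr.listSum (Z : List V) {f : V → (V → Bool) → ℚ} (h : ∀ z, Expr (f z)) :
    Expr (fun x => (Z.map fun z => f z x).sum) := by
  induction Z with
  | nil => simpa using Expr.zero
  | cons z Z ih => exact ((h z).add ih).congr fun x => by simp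

theorem Expr.ones (c : ℚ) (Z : List V) : Expr (fun x : V → Bool => c * EB.ones Z x) :=
  (Expr.listSum Z fun z => Expr.linear c z).congr fun x => by
    unfold EB.ones
    rw [List.sum_map_mul_left]

theorem Expr.negOnes {c : ℚ} (hc : 0 ≤ c) (Z : List V) (y : V) :
    Expr (fun x : V → Bool => -(c * (EB.ones Z x * v01 (x y)))) := by
  induction Z with
  | nil => simpa using Expr.zero
  | cons z Z ih =>
    refine ((Expr.negProd hc z y).add ih).congr fun x => ?_
    rw [ones_cons]
    ring

/-- the sum of the products of all pairs of variables in `a, b, Y`, except `a, b` -/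
def pairs (a b : V) : List V → (V → Bool) → ℚ
  | [], _ => 0
  | y :: Y, x => pairs a b Y x + ones (a :: b :: Y) x * v01 (x y)

theorem pairs_cons (a b y : V) (Y : List V) (x : V → Bool) :
    pairs a b (y :: Y) x = pairs a b Y x + ones (a :: b :: Y) x * v01 (x y) := rfl

theorem pairs_nonneg (a b : V) (Y : List V) (x : V → Bool) : 0 ≤ pairs a b Y x := by
  induction Y with
  | nil => simp [pairs]
  | cons y Y ih =>
    unfold pairs
    have := mul_nonneg (ones_nonneg (a :: b :: Y) x) (v01_nonneg (x y))
    linarith

theorem pairs_le (a b : V) (Y : List V) (x : V → Bool) :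
    pairs a b Y x ≤ ((Y.length : ℚ) + 1) ^ 2 := by
  induction Y with
  | nil => simp [pairs]
  | cons y Y ih =>
    unfold pairs
    have h1 := mul_le_mul (ones_le (a :: b :: Y) x) (v01_le_one (x y)) (v01_nonneg _)
      (Nat.cast_nonneg _)
    have h2 : (0 : ℚ) ≤ Y.length := Nat.cast_nonneg _
    simp only [List.length_cons] at h1 ⊢
    push_cast at h1 ⊢
    nlinarith

theorem Expr.negPairs {c : ℚ} (hc : 0 ≤ c) (a b : V) (Y : List V) :
    Expr (fun x : V → Bool => -(c * pairs a b Y x)) := by
  induction Y with
  | nil => simpa [pairs] using Expr.zero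
  | cons y Y ih =>
    refine (ih.add (Expr.negOnes hc (a :: b :: Y) y)).congr fun x => ?_
    rw [pairs_cons]
    ring

theorem pairs_false (a b : V) (Y : List V) : pairs a b Y (fun _ => false) = 0 := by
  induction Y with
  | nil => rfl
  | cons y Y ih => simp [pairs, ih]

/-- Substituting `τ (x z) (x y)` for the variables `z`, at the price of a penalty. -/
theorem Expr.subst [Finite V] {g : (V → Bool) → ℚ} (hg : Expr g) (Z : List V) (y : V) {N : ℚ}
    (hN : 0 ≤ N)
    (hdep : ∀ u v : V → Bool, (∀ z ∈ Z, u z = v z) → g u = g v) (hosc : ∀ u v, g u ≤ g v + N)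
    {P : Bool → Bool → Bool → ℚ} {τ : Bool → Bool → Bool} {Q : Bool → Bool → ℚ}
    (hP : ∀ i j k : V ⊕ V, Expr (fun x : V ⊕ V → Bool => P (x i) (x j) (x k)))
    (h1 : ∀ s t, P (τ s t) s t = Q s t) (h2 : ∀ w s t, w ≠ τ s t → Q s t + N ≤ P w s t) :
    Expr (fun x => g (fun v => τ (x v) (x y)) + (Z.map fun z => Q (x z) (x y)).sum) := by
  have hF : Expr (fun x : V ⊕ V → Bool => g (fun v => x (Sum.inr v)) +
      (Z.map fun z => P (x (Sum.inr z)) (x (Sum.inl z)) (x (Sum.inl y))).sum) := by
    refine (hg.ren Sum.inr).add ?_
    clear hdep hosc
    induction Z with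
    | nil => simpa using Expr.zero
    | cons z Z ih => exact ((hP (Sum.inr z) (Sum.inl z) (Sum.inl y)).add ih).congr fun x => by simp
  refine hF.proj fun x => ?_
  simp only [Sum.elim_inl, Sum.elim_inr]
  constructor
  · exact ⟨fun v => τ (x v) (x y), by simp only [h1]⟩
  · rintro _ ⟨w, rfl⟩
    simp only
    have h3 : ∀ w s t, Q s t ≤ P w s t := by
      intro w s t
      by_cases h : w = τ s t
      · rw [h, h1]
      · have := h2 w s t h
        linarith
    have h4 : (Z.map fun z => Q (x z) (x y)).sum ≤ (Z.map fun z => P (w z) (x z) (x y)).sum :=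
      List.sum_le_sum fun z _ => h3 _ _ _
    by_cases h : ∀ z ∈ Z, w z = τ (x z) (x y)
    · rw [hdep _ _ h]
      linarith
    · push Not at h
      obtain ⟨z, hz, hz'⟩ := h
      have h5 : (Z.map fun z => Q (x z) (x y)).sum + N ≤
          (Z.map fun z => P (w z) (x z) (x y)).sum := by
        clear hdep h4 hF
        induction Z with
        | nil => simp at hz
        | cons z' Z ih =>
          rw [List.map_cons, List.map_cons, List.sum_cons, List.sum_cons]
          rcases List.mem_cons.1 hz with rfl | hz
          · have h6 := h2 _ _ _ hz'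
            have h7 : (Z.map fun z => Q (x z) (x y)).sum ≤
                (Z.map fun z => P (w z) (x z) (x y)).sum := List.sum_le_sum fun z _ => h3 _ _ _
            linarith
          · have h6 := ih hz
            have h7 := h3 (w z') (x z') (x y)
            linarith
      have h6 := hosc (fun v => τ (x v) (x y)) w
      linarith

theorem Expr.andSub [Finite V] {g : (V → Bool) → ℚ} (hg : Expr g) (Z : List V) (y : V) {N : ℚ}
    (hN : 0 ≤ N)
    (hdep : ∀ u v : V → Bool, (∀ z ∈ Z, u z = v z) → g u = g v) (hosc : ∀ u v, g u ≤ g v + N) :
    Expr (fun x => g (fun v => x v && x y) - N * (EB.ones Z x * v01 (x y))) := by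
  refine (Expr.subst hg Z y hN hdep hosc
    (P := fun w s t => 3 * N * v01 w + -(2 * N * (v01 w * v01 s)) + -(2 * N * (v01 w * v01 t)))
    (τ := fun s t => s && t) (Q := fun s t => -(N * (v01 s * v01 t))) (fun i j k => ?_) ?_
    ?_).congr fun x => ?_
  · exact ((Expr.linear _ _).add (Expr.negProd (by linarith) _ _)).add
      (Expr.negProd (by linarith) _ _)
  · intro s t
    cases s <;> cases t <;> (simp; try ring)
  · intro w s t h
    cases w <;> cases s <;> cases t <;> simp at h ⊢ <;> linarith
  · rw [sub_eq_add_neg]
    refine congrArg _ ?_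
    clear hdep hosc
    induction Z with
    | nil => simp
    | cons z Z ih =>
      rw [List.map_cons, List.sum_cons, ih, ones_cons]
      ring

theorem Expr.orSub [Finite V] {g : (V → Bool) → ℚ} (hg : Expr g) (Z : List V) (y : V) {N : ℚ}
    (hN : 0 ≤ N)
    (hdep : ∀ u v : V → Bool, (∀ z ∈ Z, u z = v z) → g u = g v) (hosc : ∀ u v, g u ≤ g v + N) :
    Expr (fun x => g (fun v => x v || x y) - N * (EB.ones Z x * v01 (x y))) := by
  have h := Expr.subst hg Z y hN hdep hosc
    (P := fun w s t => N * v01 w + -(2 * N * (v01 w * v01 s)) + -(2 * N * (v01 w * v01 t)))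
    (τ := fun s t => s || t) (Q := fun s t => -(N * (v01 s + v01 t + v01 s * v01 t)))
    (fun i j k => ?_) ?_ ?_
  · refine ((h.add (Expr.ones N Z)).add (Expr.linear (N * Z.length) y)).congr fun x => ?_
    rw [sub_eq_add_neg, add_assoc, add_assoc]
    refine congrArg _ ?_
    clear hdep hosc h
    induction Z with
    | nil => simp
    | cons z Z ih =>
      rw [List.map_cons, List.sum_cons, ones_cons, List.length_cons]
      push_cast
      linarith
  · exact ((Expr.linear _ _).add (Expr.negProd (by linarith) _ _)).add
      (Expr.negProd (by linarith) _ _)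
  · intro s t
    cases s <;> cases t <;> (simp; try ring)
  · intro w s t h
    cases w <;> cases s <;> cases t <;> simp at h ⊢ <;> linarith

/-- the constants in the main lemma -/
def C : ℕ → ℚ
  | 0 => 0
  | k + 1 => 4 + 2 * C k * ((k : ℚ) + 1) ^ 2

theorem C_nonneg (k : ℕ) : 0 ≤ C k := by
  induction k with
  | zero => simp [C]
  | succ k ih =>
    unfold C
    positivity

theorem C_le (k : ℕ) : C k ≤ 2 ^ ((k + 3) ^ 2) := by
  induction k with
  | zero => simp [C]
  | succ k ih =>
    unfold C
    have h1 : ((k : ℚ) + 1) ≤ 2 ^ k := by
      exact_mod_cast Nat.lt_two_pow_self (n := k)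
    have h2 : ((k : ℚ) + 1) ^ 2 ≤ 2 ^ (2 * k) := by
      rw [pow_mul']
      exact pow_le_pow_left₀ (by positivity) h1 2
    have h3 : (2 : ℚ) ^ ((k + 1 + 3) ^ 2) = 2 ^ ((k + 3) ^ 2) * (2 ^ (2 * k) * 2 ^ 7) := by
      rw [← pow_add, ← pow_add]
      ring
    rw [h3]
    have h4 : (1 : ℚ) ≤ 2 ^ ((k + 3) ^ 2) := one_le_pow₀ (by norm_num)
    have h5 : (1 : ℚ) ≤ 2 ^ (2 * k) := one_le_pow₀ (by norm_num)
    have h6 := mul_le_mul ih h2 (by positivity) (by positivity)
    have h7 : (1 : ℚ) ≤ 2 ^ ((k + 3) ^ 2) * 2 ^ (2 * k) := one_le_mul_of_one_le_of_one_le h4 h5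
    nlinarith

/-- **Main lemma.** If the second difference of `F` with respect to `a, b` is nonpositive everywhere
then `F` minus a large multiple of the sum of the products of all other pairs is expressible. -/
theorem expr_main [Finite V] [DecidableEq V] {a b : V} (hab : a ≠ b) : ∀ (Y : List V),
    (∀ y ∈ Y, y ≠ a ∧ y ≠ b) → ∀ (F : (V → Bool) → ℚ) (B : ℚ), (∀ x, |F x| ≤ B) →
    (∀ u v : V → Bool, (∀ z ∈ a :: b :: Y, u z = v z) → F u = F v) →
    (∀ x : V → Bool, F (Function.update (Function.update x a true) b true) +
      F (Function.update (Function.update x a false) b false) ≤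
      F (Function.update (Function.update x a true) b false) +
      F (Function.update (Function.update x a false) b true)) →
    ∀ M, B * C Y.length ≤ M → Expr (fun x => F x - M * pairs a b Y x)
  | [], _, F, B, hB, hdep, hsub, M, _ => by
    have h1 : Submodular2 (fun s t => F (Function.update (Function.update (fun _ => false) a s)
        b t)) := by
      rw [submodular2_iff]
      have := hsub (fun _ => false)
      linarith
    refine (Expr.term h1 a b).congr fun x => ?_
    simp only [pairs, mul_zero, sub_zero]
    refine hdep _ _ fun z hz => ?_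
    simp only [List.mem_cons, List.not_mem_nil, or_false] at hz
    rcases hz with rfl | rfl
    · rw [Function.update_of_ne hab, Function.update_self]
    · rw [Function.update_self]
  | y :: Y, hY, F, B, hB, hdep, hsub, M, hM => by
    have hya := (hY y List.mem_cons_self).1
    have hyb := (hY y List.mem_cons_self).2
    have hY' : ∀ z ∈ Y, z ≠ a ∧ z ≠ b := fun z hz => hY z (List.mem_cons_of_mem _ hz)
    have hB0 : 0 ≤ B := (abs_nonneg _).trans (hB (fun _ => false))
    have key : ∀ s : Bool, Expr (fun x => F (Function.update x y s) -
        B * C Y.length * pairs a b Y x) := by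
      intro s
      refine expr_main hab Y hY' (fun x => F (Function.update x y s)) B (fun x => hB _) ?_ ?_ _
        le_rfl
      · intro u v huv
        refine hdep _ _ fun z hz => ?_
        by_cases h : z = y
        · subst h
          rw [Function.update_self, Function.update_self]
        · rw [Function.update_of_ne h, Function.update_of_ne h]
          refine huv z ?_
          simp only [List.mem_cons] at hz ⊢
          tauto
      · intro x
        have := hsub (Function.update x y s)
        have h1 : ∀ c d : Bool, Function.update (Function.update (Function.update x a c) b d) y s =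
            Function.update (Function.update (Function.update x y s) a c) b d := by
          intro c d
          rw [Function.update_comm hyb.symm, Function.update_comm hya.symm]
        simp only [h1]
        exact this
    have hC := C_nonneg Y.length
    have hMk : 0 ≤ B * C Y.length := mul_nonneg hB0 hC
    have hpd : ∀ u v : V → Bool, (∀ z ∈ a :: b :: Y, u z = v z) → pairs a b Y u = pairs a b Y v := by
      intro u v huv
      have h1 : ∀ Y' : List V, (∀ z ∈ Y', z ∈ Y) → ones Y' u = ones Y' v ∧
          pairs a b Y' u = pairs a b Y' v := by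
        intro Y'
        induction Y' with
        | nil => intro _; exact ⟨rfl, rfl⟩
        | cons z Z ih =>
          intro h
          obtain ⟨h2, h3⟩ := ih fun z hz => h z (List.mem_cons_of_mem _ hz)
          have h4 := huv z (List.mem_cons_of_mem _ (List.mem_cons_of_mem _
            (h z List.mem_cons_self)))
          have h5 := huv a (by simp)
          have h6 := huv b (by simp)
          constructor
          · rw [ones_cons, ones_cons, h2, h4]
          · simp only [pairs, ones_cons]
            rw [h2, h3, h4, h5, h6]
      exact (h1 Y fun z hz => hz).2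
    set N : ℚ := 2 * B + B * C Y.length * ((Y.length : ℚ) + 1) ^ 2 with hNdef
    have hN : 0 ≤ N := by positivity
    have hdep2 : ∀ s : Bool, ∀ u v : V → Bool, (∀ z ∈ a :: b :: Y, u z = v z) →
        F (Function.update u y s) - B * C Y.length * pairs a b Y u =
        F (Function.update v y s) - B * C Y.length * pairs a b Y v := by
      intro s u v huv
      rw [hpd u v huv]
      refine congrArg₂ _ (hdep _ _ fun z hz => ?_) rfl
      by_cases h : z = y
      · subst h
        rw [Function.update_self, Function.update_self]
      · rw [Function.update_of_ne h, Function.update_of_ne h]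
        refine huv z ?_
        simp only [List.mem_cons] at hz ⊢
        tauto
    have hosc : ∀ s : Bool, ∀ u v : V → Bool,
        F (Function.update u y s) - B * C Y.length * pairs a b Y u ≤
        F (Function.update v y s) - B * C Y.length * pairs a b Y v + N := by
      intro s u v
      have h1 := abs_le.1 (hB (Function.update u y s))
      have h2 := abs_le.1 (hB (Function.update v y s))
      have h3 := mul_nonneg hMk (pairs_nonneg a b Y u)
      have h4 := mul_le_mul_of_nonneg_left (pairs_le a b Y v) hMk
      linarith [h1.2, h2.1]
    have e1 := Expr.andSub (key true) (a :: b :: Y) y hN (hdep2 true) (hosc true)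
    have e2 := Expr.orSub (key false) (a :: b :: Y) y hN (hdep2 false) (hosc false)
    have hM2 : 2 * N ≤ M := by
      have : B * C (y :: Y).length = 2 * N := by
        rw [List.length_cons, hNdef]
        simp only [C]
        ring
      linarith
    have hM1 : B * C Y.length ≤ M := by
      have h1 : B * C Y.length * 1 ≤ B * C Y.length * ((Y.length : ℚ) + 1) ^ 2 := by
        refine mul_le_mul_of_nonneg_left (one_le_pow₀ ?_) hMk
        have : (0 : ℚ) ≤ Y.length := Nat.cast_nonneg _
        linarith
      linarith
    have e3 := Expr.negPairs (sub_nonneg.2 hM1) a b Y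
    have e4 := Expr.negOnes (sub_nonneg.2 hM2) (a :: b :: Y) y
    have : Nonempty V := ⟨a⟩
    have e5 := Expr.const (V := V) (-(F (Function.update (fun _ => false) y true)))
    have e6 := Expr.linear (F (Function.update (fun _ => false) y true) -
      F (Function.update (fun _ => true) y false) +
      B * C Y.length * pairs a b Y (fun _ => true)) y
    refine (((((e1.add e2).add e3).add e4).add e5).add e6).congr fun x => ?_
    simp only [pairs]
    cases hxy : x y
    · have h1 : Function.update x y false = x := by
        rw [← hxy, Function.update_eq_self]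
      simp only [Bool.and_false, Bool.or_false, v01_false, mul_zero, pairs_false, h1]
      ring
    · have h1 : Function.update x y true = x := by
        rw [← hxy, Function.update_eq_self]
      simp only [Bool.and_true, Bool.or_true, v01_true, mul_one, h1]
      ring

end Pool.Agent.Q231.EB
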