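import Pool.Agent.Q231.EB.Red
import Pool.Agent.H671R2.CK.K4
import Pool.Agent.H671R2.CK.K7
import Pool.Agent.H25R3.Cones.Compl
import Pool.Agent.Q231.GrTest

/-!
# The reduction is computable in polynomial time
-/

namespace Pool.Agent.Q231.EB

open Pool.Agent.NPC Pool.Agent.CK Pool.Agent.Q231.NaeN

variable {α : Type} [TEnc α]

theorem idxOf_eq_aux (v : ℕ) : ∀ (l : List ℕ) (n : ℕ),
    ((((l.zipIdx n).filter fun q => decide (q.1 = v)).head?.map fun q => q.2).getD
      (n + l.length)) = n + l.idxOf v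
  | [], n => by simp
  | a :: l, n => by
    rw [List.zipIdx_cons]
    by_cases h : a = v
    · subst h
      simp
    · rw [List.filter_cons_of_neg (by simpa using h), List.idxOf_cons_ne _ h, List.length_cons]
      have := idxOf_eq_aux v l (n + 1)
      rw [show n + (l.length + 1) = n + 1 + l.length by ring, this]
      omega

@[fun_prop]
theorem poly_idxOf {l : α → List ℕ} {v : α → ℕ} (hl : Poly l) (hv : Poly v) :
    Poly (fun a => (l a).idxOf (v a)) := by
  have h : Poly (fun a => ((((l a).zipIdx.filter fun q => decide (q.1 = v a)).head?.map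
      fun q => q.2).getD (l a).length)) := by fun_prop
  refine h.congr fun a => ?_
  have := idxOf_eq_aux (v a) (l a) 0
  simpa using this

@[fun_prop]
theorem poly_isum {l : α → List ℤ} (hl : Poly l) : Poly (fun a => (l a).sum) := Poly.isum hl

@[fun_prop]
theorem poly_dedup' {β : Type} [TEnc β] [DecidableEq β] {l : α → List β}
    (hl : Poly l) : Poly (fun a => (l a).dedup) := Gr.poly_dedup hl

@[fun_prop]
theorem poly_ix {l : α → List (ℕ × ℕ × ℕ)} {v : α → ℕ} (hl : Poly l) (hv : Poly v) :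
    Poly (fun a => ix (l a) (v a)) := by
  unfold ix vars
  fun_prop

@[fun_prop]
theorem poly_vars {l : α → List (ℕ × ℕ × ℕ)} (hl : Poly l) : Poly (fun a => vars (l a)) := by
  unfold vars
  fun_prop

@[fun_prop]
theorem poly_pm {p q : α → ℕ} (hp : Poly p) (hq : Poly q) : Poly (fun a => pm (p a) (q a)) := by
  unfold pm
  fun_prop

@[fun_prop]
theorem poly_clauseTerms {p q r : α → ℕ} (hp : Poly p) (hq : Poly q) (hr : Poly r) :
    Poly (fun a => clauseTerms (p a) (q a) (r a)) := by
  unfold clauseTerms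
  fun_prop

@[fun_prop]
theorem poly_gadgetTerms {m : α → ℕ} (hm : Poly m) : Poly (fun a => gadgetTerms (m a)) := by
  unfold gadgetTerms
  fun_prop

theorem poly_quadTerms_aux {r : α → List ℕ} {M : α → ℤ} (hr : Poly r) (hM : Poly M) :
    Poly (fun a => (r a).flatMap fun j => ((([0, j + 4], M a) : List ℕ × ℤ)) ::
      ([1, j + 4], M a) ::
        (((r a).filter fun i => decide (i < j)).map fun i => ([i + 4, j + 4], M a))) := by
  fun_prop

theorem poly_quadTerms {n : α → ℕ} {M : α → ℤ} (hn : UPoly n) (hM : Poly M) :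
    Poly (fun a => quadTerms (n a) (M a)) :=
  poly_quadTerms_aux hn.range hM

@[fun_prop]
theorem poly_bigM {l : α → List (ℕ × ℕ × ℕ)} (hl : Poly l) : Poly (fun a => bigM (l a)) := by
  unfold bigM
  have h1 : UPoly (fun a => (vars (l a)).length + 3) :=
    (UPoly.length (poly_vars hl)).add (UPoly.const 3)
  exact Poly.mul (Poly.length hl) (poly_pow2 (h1.mul h1))

@[fun_prop]
theorem poly_raw {l : α → List (ℕ × ℕ × ℕ)} (hl : Poly l) : Poly (fun a => raw (l a)) := by
  unfold raw
  have h1 : Poly (fun a => quadTerms (vars (l a)).length (-((bigM (l a) : ℕ) : ℤ))) :=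
    poly_quadTerms (UPoly.length (poly_vars hl)) (by fun_prop)
  fun_prop

@[fun_prop]
theorem poly_collect {R : α → List (List ℕ × ℤ)} (hR : Poly R) :
    Poly (fun a => collect (R a)) := by
  unfold collect
  fun_prop

theorem poly_inst : Poly inst := by
  unfold inst
  have h1 : UPoly (fun φ : List (ℕ × ℕ × ℕ) => (vars φ).length + 4) :=
    (UPoly.length (poly_vars Poly.id)).add (UPoly.const 4)
  have h2 : Poly (fun φ : List (ℕ × ℕ × ℕ) => List.replicate ((vars φ).length + 4) ()) := h1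
  fun_prop

theorem correct (φ : List (ℕ × ℕ × ℕ)) :
    Promise (inst φ) ∧ (¬ NAEn φ ↔ Expressible (inst φ).f) := by
  have key : ∀ n, n = (vars φ).length + 4 → Submodular (fp n (collect (raw φ))) ∧
      (¬ NAEn φ ↔ Expressible (fp n (collect (raw φ)))) := by
    rintro n rfl
    exact ⟨submodular_fp φ, expressible_of_unsat,
      fun h1 h2 => not_expressible_of_sat h2 h1⟩
  obtain ⟨h1, h2⟩ := key _ (inst_n φ)
  exact ⟨⟨valid φ, h1⟩, h2⟩

theorem promise_hard : PromiseCoNPHard Promise (fun I : Inst => Expressible I.f) := by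
  intro L hL
  obtain ⟨F, hF, hF'⟩ := hardI_NAEn Lᶜ hL
  refine ⟨fun x => inst (F x), PC.toPolyTime_bits poly_inst F hF, fun x => ?_⟩
  obtain ⟨h1, h2⟩ := correct (F x)
  refine ⟨h1, ?_⟩
  change x ∈ L ↔ Expressible (inst (F x)).f
  rw [← h2, ← hF', Set.mem_compl_iff, not_not]

theorem PromiseCoNPHard.toCoNPHardP {β : Type} [TEnc β] {Pr Q : β → Prop}
    (h : PromiseCoNPHard Pr Q) : CoNPHardP (fun I => Pr I ∧ Q I) := by
  intro L hL
  obtain ⟨F, hF, hF'⟩ := h L hL
  refine ⟨fun x => bits (F x), hF, fun x => ?_⟩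
  rw [(hF' x).2]
  constructor
  · intro h
    exact ⟨F x, rfl, (hF' x).1, h⟩
  · rintro ⟨a, ha, _, h⟩
    rw [bits_injective ha] at h
    exact h

theorem PromiseCoNPHard.collapse {β : Type} [TEnc β] {Pr Q : β → Prop}
    (h : PromiseCoNPHard Pr Q) (hP : PromiseInP Pr Q) : ∀ L, InNP L → InP L := by
  intro L hL
  have h1 : InCoNP Lᶜ := by
    unfold InCoNP
    rwa [compl_compl]
  obtain ⟨F, hF, hF'⟩ := h _ h1
  obtain ⟨V, hV, hV'⟩ := hP
  have h2 : InP {w : List Bool | V w = [true]} := ⟨V, hV, fun _ => Iff.rfl⟩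
  have h3 : Reduces Lᶜ {w : List Bool | V w = [true]} :=
    ⟨fun x => bits (F x), hF, fun x => (hF' x).2.trans (hV' _ (hF' x).1)⟩
  have h4 := Gr.inP_compl (InP.of_reduces h3 h2)
  rwa [compl_compl] at h4

end Pool.Agent.Q231.EB
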