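import Pool.Agent.Q231.EB.Inst
import Pool.Agent.Q231.NaeN

/-!
# Correctness of the reduction
-/

namespace Pool.Agent.Q231.EB

open Pool.Agent.Q231.NaeN

/-- the value of a monomial -/
def mono (s : List ℕ) (X : ℕ → Bool) : ℚ := (s.map fun i => v01 (X i)).prod

/-- the value of a list of terms -/
def valR (R : List (List ℕ × ℤ)) (X : ℕ → Bool) : ℚ := (R.map fun p => (p.2 : ℚ) * mono p.1 X).sum

/-- `1` if the three bits are not all equal and `0` otherwise -/
def nae (a b c : Bool) : ℚ :=
  v01 a + v01 b + v01 c - v01 a * v01 b - v01 b * v01 c - v01 a * v01 c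

theorem nae_eq (a b c : Bool) : nae a b c = if a = b ∧ b = c then 0 else 1 := by
  cases a <;> cases b <;> cases c <;> norm_num [nae]

theorem nae_nonneg (a b c : Bool) : 0 ≤ nae a b c := by
  rw [nae_eq]
  split_ifs <;> norm_num

theorem nae_le_one (a b c : Bool) : nae a b c ≤ 1 := by
  rw [nae_eq]
  split_ifs <;> norm_num

theorem valR_append (R R' : List (List ℕ × ℤ)) (X : ℕ → Bool) :
    valR (R ++ R') X = valR R X + valR R' X := by
  unfold valR
  rw [List.map_append, List.sum_append]

theorem valR_flatMap {β : Type} (l : List β) (g : β → List (List ℕ × ℤ)) (X : ℕ → Bool) :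
    valR (l.flatMap g) X = (l.map fun b => valR (g b) X).sum := by
  induction l with
  | nil => rfl
  | cons b l ih => rw [List.flatMap_cons, valR_append, ih, List.map_cons, List.sum_cons]

theorem mono_pm (p q : ℕ) (X : ℕ → Bool) : mono (pm p q) X = v01 (X p) * v01 (X q) := by
  unfold pm mono
  split_ifs with h1 h2
  · simp
  · simp [mul_comm]
  · obtain rfl : p = q := by omega
    cases h : X p <;> simp [h]

theorem val_clause (p q r : ℕ) (X : ℕ → Bool) : valR (clauseTerms p q r) X =
    v01 (X 0) * v01 (X 1) * nae (X p) (X q) (X r) := by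
  have h : ∀ p q, mono (0 :: 1 :: pm p q) X = v01 (X 0) * (v01 (X 1) * (v01 (X p) * v01 (X q))) := by
    intro p q
    rw [← mono_pm]
    simp [mono]
  unfold valR clauseTerms nae
  simp only [List.map_cons, List.map_nil, List.sum_cons, List.sum_nil, h]
  simp only [mono, List.map_cons, List.map_nil, List.prod_cons, List.prod_nil]
  push_cast
  ring

theorem val_gadget (m : ℕ) (X : ℕ → Bool) : valR (gadgetTerms m) X =
    -((m : ℚ) + 1) * (v01 (X 0) * v01 (X 1)) + v01 (X 0) * v01 (X 1) * v01 (X 2) +
      v01 (X 0) * v01 (X 1) * v01 (X 3) - v01 (X 0) * v01 (X 1) * v01 (X 2) * v01 (X 3) -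
      v01 (X 0) * v01 (X 2) - v01 (X 0) * v01 (X 3) - v01 (X 1) * v01 (X 2) -
      v01 (X 1) * v01 (X 3) := by
  unfold valR gadgetTerms mono
  simp only [List.map_cons, List.map_nil, List.sum_cons, List.sum_nil, List.prod_cons,
    List.prod_nil]
  push_cast
  ring

theorem filter_range {j n : ℕ} (h : j ≤ n) :
    (List.range n).filter (fun i => decide (i < j)) = List.range j := by
  obtain ⟨d, rfl⟩ := Nat.exists_eq_add_of_le h
  rw [List.range_add, List.filter_append]
  have h1 : (List.range j).filter (fun k => decide (k < j)) = List.range j := by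
    rw [List.filter_eq_self]
    intro k hk
    simpa using hk
  have h2 : ((List.range d).map (fun x => j + x)).filter (fun k => decide (k < j)) = [] := by
    rw [List.filter_eq_nil_iff]
    intro k hk
    simp at hk ⊢
    omega
  rw [h1, h2, List.append_nil]

/-- the quadratic form -/
def quad (n : ℕ) (X : ℕ → Bool) : ℚ := ((List.range n).map fun j =>
  (v01 (X 0) + (v01 (X 1) + ((List.range j).map fun i => v01 (X (i + 4))).sum)) *
    v01 (X (j + 4))).sum

theorem val_quad (n : ℕ) (M : ℤ) (X : ℕ → Bool) : valR (quadTerms n M) X = M * quad n X := by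
  unfold quadTerms quad
  rw [valR_flatMap, ← List.sum_map_mul_left]
  congr 1
  refine List.map_congr_left fun j hj => ?_
  rw [List.mem_range] at hj
  rw [filter_range hj.le]
  unfold valR
  rw [List.map_cons, List.map_cons, List.sum_cons, List.sum_cons, List.map_map]
  have h1 : (List.map ((fun p : List ℕ × ℤ => (p.2 : ℚ) * mono p.1 X) ∘ fun i => ([i + 4, j + 4], M))
      (List.range j)).sum = M * ((((List.range j).map fun i => v01 (X (i + 4))).sum) *
      v01 (X (j + 4))) := by
    rw [← List.sum_map_mul_right, ← List.sum_map_mul_left]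
    congr 1
    refine List.map_congr_left fun i _ => ?_
    simp [mono]
  rw [h1]
  simp only [mono, List.map_cons, List.map_nil, List.prod_cons, List.prod_nil]
  ring

/-- the number of satisfied clauses -/
def qv (φ : List (ℕ × ℕ × ℕ)) (X : ℕ → Bool) : ℚ :=
  (φ.map fun t => nae (X (ix φ t.1)) (X (ix φ t.2.1)) (X (ix φ t.2.2))).sum

theorem val_raw (φ : List (ℕ × ℕ × ℕ)) (X : ℕ → Bool) : valR (raw φ) X =
    v01 (X 0) * v01 (X 1) * qv φ X + (-((φ.length : ℚ) + 1) * (v01 (X 0) * v01 (X 1)) +
      v01 (X 0) * v01 (X 1) * v01 (X 2) + v01 (X 0) * v01 (X 1) * v01 (X 3) -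
      v01 (X 0) * v01 (X 1) * v01 (X 2) * v01 (X 3) - v01 (X 0) * v01 (X 2) -
      v01 (X 0) * v01 (X 3) - v01 (X 1) * v01 (X 2) - v01 (X 1) * v01 (X 3)) -
      (bigM φ : ℚ) * quad (vars φ).length X := by
  unfold raw
  rw [valR_append, valR_append, valR_flatMap, val_gadget, val_quad]
  simp only [val_clause]
  rw [List.sum_map_mul_left]
  unfold qv
  push_cast
  ring

/-- the polynomial with given monomials, in `n` variables -/
def fp (n : ℕ) (P : List (List ℕ × ℚ)) (x : Fin n → Bool) : ℚ :=
  (P.map fun p => p.2 * monomial p.1 x).sum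

/-- the variable with a given number -/
def vv (N : ℕ) (i : ℕ) : Fin (N + 4) := Fin.ofNat (N + 4) i

theorem vv_of_lt {N i : ℕ} (h : i < N + 4) : vv N i = ⟨i, h⟩ := by
  unfold vv
  ext
  simp [Fin.ofNat, Nat.mod_eq_of_lt h]

theorem monomial_eq {N : ℕ} {s : List ℕ} (hs : ∀ i ∈ s, i < N + 4) (x : Fin (N + 4) → Bool) :
    monomial s x = mono s (fun i => x (vv N i)) := by
  have h1 : ∀ s : List ℕ, mono s (fun i => x (vv N i)) =
      if ∀ i ∈ s, x (vv N i) = true then 1 else 0 := by
    intro s
    induction s with
    | nil => simp [mono]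
    | cons i s ih =>
      have : mono (i :: s) (fun i => x (vv N i)) = v01 (x (vv N i)) *
          mono s (fun i => x (vv N i)) := by simp [mono]
      rw [this, ih]
      cases h : x (vv N i) <;> simp [h]
  rw [h1]
  unfold monomial
  congr 1
  rw [eq_iff_iff]
  constructor
  · intro h i hi
    rw [vv_of_lt (hs i hi)]
    exact h _ hi
  · intro h i hi
    have := h i hi
    rwa [vv_of_lt i.2] at this

theorem fp_eq (φ : List (ℕ × ℕ × ℕ)) (x : Fin ((vars φ).length + 4) → Bool) :
    fp ((vars φ).length + 4) (collect (raw φ)) x =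
      valR (raw φ) (fun i => x (vv (vars φ).length i)) := by
  unfold fp valR
  rw [sum_collect (raw φ) (fun s => monomial s x)]
  congr 1
  refine List.map_congr_left fun p hp => ?_
  rw [monomial_eq (good_raw hp).2.1]

/-! ### the list of variables -/

/-- the variables for the formula -/
def YY (N n : ℕ) : List (Fin (N + 4)) := ((List.range n).reverse).map fun j => vv N (j + 4)

theorem YY_succ (N n : ℕ) : YY N (n + 1) = vv N (n + 4) :: YY N n := by
  unfold YY
  rw [List.range_succ, List.reverse_append]
  rfl

theorem ones_YY (N n : ℕ) (x : Fin (N + 4) → Bool) : ones (YY N n) x =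
    ((List.range n).map fun i => v01 (x (vv N (i + 4)))).sum := by
  induction n with
  | zero => rfl
  | succ n ih =>
    rw [YY_succ, ones_cons, ih, List.range_succ, List.map_append, List.sum_append]
    simp [add_comm]

theorem quad_eq (N n : ℕ) (x : Fin (N + 4) → Bool) :
    quad n (fun i => x (vv N i)) = pairs (vv N 0) (vv N 1) (YY N n) x := by
  induction n with
  | zero => rfl
  | succ n ih =>
    rw [YY_succ, pairs_cons, ← ih, ones_cons, ones_cons, ones_YY]
    unfold quad
    rw [List.range_succ, List.map_append, List.sum_append]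
    simp

theorem length_YY (N n : ℕ) : (YY N n).length = n := by simp [YY]

theorem mem_YY {N n : ℕ} {z : Fin (N + 4)} : z ∈ YY N n ↔ ∃ j < n, vv N (j + 4) = z := by
  simp [YY]

theorem qv_nonneg (φ : List (ℕ × ℕ × ℕ)) (X : ℕ → Bool) : 0 ≤ qv φ X := by
  unfold qv
  refine List.sum_nonneg fun a ha => ?_
  obtain ⟨t, _, rfl⟩ := List.mem_map.1 ha
  exact nae_nonneg _ _ _

theorem sum_le_length {β : Type} (l : List β) (g : β → ℚ) (h : ∀ b, g b ≤ 1) :
    (l.map g).sum ≤ l.length := by
  induction l with
  | nil => simp
  | cons b l ih =>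
    rw [List.map_cons, List.sum_cons, List.length_cons]
    have := h b
    push_cast
    linarith

theorem qv_le (φ : List (ℕ × ℕ × ℕ)) (X : ℕ → Bool) : qv φ X ≤ φ.length :=
  sum_le_length _ _ fun _ => nae_le_one _ _ _

theorem sum_lt_length {β : Type} (l : List β) (g : β → ℚ) (h : ∀ b, g b = 0 ∨ g b = 1)
    (h0 : ∃ b ∈ l, g b = 0) : (l.map g).sum ≤ l.length - 1 := by
  induction l with
  | nil => simp at h0
  | cons b l ih =>
    rw [List.map_cons, List.sum_cons, List.length_cons]
    push_cast
    have hle : (l.map g).sum ≤ l.length := sum_le_length _ _ fun b => by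
      rcases h b with h | h <;> rw [h] <;> norm_num
    obtain ⟨c, hc, hc0⟩ := h0
    rcases List.mem_cons.1 hc with rfl | hc
    · rw [hc0]
      linarith
    · have := ih ⟨c, hc, hc0⟩
      rcases h b with h | h <;> rw [h] <;> linarith

theorem nae_zero_or_one (a b c : Bool) : nae a b c = 0 ∨ nae a b c = 1 := by
  rw [nae_eq]
  split_ifs <;> simp

theorem qv_unsat {φ : List (ℕ × ℕ × ℕ)} (h : ¬ NAEn φ) (X : ℕ → Bool) :
    qv φ X ≤ φ.length - 1 := by
  refine sum_lt_length _ _ (fun t => nae_zero_or_one _ _ _) ?_
  by_contra hcon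
  push Not at hcon
  refine h ⟨fun v => X (ix φ v), fun t ht => ?_⟩
  have h1 := hcon t ht
  rw [nae_eq] at h1
  intro h2
  rw [if_pos h2] at h1
  exact h1 rfl

theorem qv_sat {φ : List (ℕ × ℕ × ℕ)} {X : ℕ → Bool} (h : ∀ t ∈ φ,
    ¬ (X (ix φ t.1) = X (ix φ t.2.1) ∧ X (ix φ t.2.1) = X (ix φ t.2.2))) :
    qv φ X = φ.length := by
  unfold qv
  rw [List.map_congr_left (g := fun _ => (1 : ℚ)) fun t ht => by rw [nae_eq, if_neg (h t ht)]]
  simp

/-- the function to which the main lemma is applied -/
theorem expr_FF (φ : List (ℕ × ℕ × ℕ)) (c : ℚ) (hc : c ≤ φ.length)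
    (hq : ∀ X, qv φ X ≤ c) :
    Expr (fun x : Fin ((vars φ).length + 4) → Bool =>
      -(v01 (x (vv _ 0)) * v01 (x (vv _ 1)) * (c - qv φ (fun i => x (vv _ i)))) -
        (bigM φ : ℚ) * quad (vars φ).length (fun i => x (vv _ i))) := by
  set N := (vars φ).length with hN
  have hne : ∀ i j : ℕ, i < N + 4 → j < N + 4 → i ≠ j → vv N i ≠ vv N j := by
    intro i j hi hj hij h
    rw [vv_of_lt hi, vv_of_lt hj] at h
    exact hij (congrArg Fin.val h)
  have h01 : vv N 0 ≠ vv N 1 := hne 0 1 (by omega) (by omega) (by omega)
  have hY : ∀ y ∈ YY N N, y ≠ vv N 0 ∧ y ≠ vv N 1 := by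
    intro y hy
    obtain ⟨j, hj, rfl⟩ := mem_YY.1 hy
    exact ⟨hne _ _ (by omega) (by omega) (by omega), hne _ _ (by omega) (by omega) (by omega)⟩
  have hqY : ∀ u v : Fin (N + 4) → Bool, (∀ z ∈ YY N N, u z = v z) →
      qv φ (fun i => u (vv N i)) = qv φ (fun i => v (vv N i)) := by
    intro u v huv
    have h1 : ∀ w ∈ vars φ, u (vv N (ix φ w)) = v (vv N (ix φ w)) := by
      intro w hw
      refine huv _ (mem_YY.2 ⟨(vars φ).idxOf w, List.idxOf_lt_length_iff.2 hw, rfl⟩)
    unfold qv
    congr 1
    refine List.map_congr_left fun t ht => ?_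
    obtain ⟨h2, h3, h4⟩ := mem_vars ht
    simp only [h1 _ h2, h1 _ h3, h1 _ h4]
  have key := expr_main h01 (YY N N) hY
    (fun x => -(v01 (x (vv N 0)) * v01 (x (vv N 1)) * (c - qv φ (fun i => x (vv N i)))))
    (φ.length : ℚ) ?_ ?_ ?_ (bigM φ : ℚ) ?_
  · exact key.congr fun x => by rw [quad_eq]
  · intro x
    have h1 := hq (fun i => x (vv N i))
    have h2 := qv_nonneg φ (fun i => x (vv N i))
    have h3 : (0 : ℚ) ≤ φ.length := Nat.cast_nonneg _
    rw [abs_neg, ← v01_and, abs_of_nonneg (mul_nonneg (v01_nonneg _) (by linarith))]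
    cases (x (vv N 0) && x (vv N 1))
    · simp
    · simp only [v01_true, one_mul]
      linarith
  · intro u v huv
    have h1 := hqY u v fun z hz => huv z (by simp [hz])
    have h2 := huv (vv N 0) (by simp)
    have h3 := huv (vv N 1) (by simp)
    rw [h1, h2, h3]
  · intro x
    have h1 : ∀ s t : Bool, qv φ (fun i => Function.update (Function.update x (vv N 0) s)
        (vv N 1) t (vv N i)) = qv φ (fun i => x (vv N i)) := by
      intro s t
      refine hqY _ _ fun z hz => ?_
      rw [Function.update_of_ne (hY z hz).2, Function.update_of_ne (hY z hz).1]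
    simp only [h1, Function.update_self, Function.update_of_ne h01]
    simp only [v01_true, v01_false, mul_zero, zero_mul, mul_one, one_mul, neg_zero, add_zero]
    have := hq (fun i => x (vv N i))
    linarith
  · rw [length_YY]
    unfold bigM
    push_cast
    refine mul_le_mul_of_nonneg_left ?_ (Nat.cast_nonneg _)
    rw [← hN, ← sq]
    exact C_le N

theorem expressible_of_unsat {φ : List (ℕ × ℕ × ℕ)} (h : ¬ NAEn φ) :
    Expressible (fp ((vars φ).length + 4) (collect (raw φ))) := by
  refine Expr.expressible ?_
  have h1 := expr_FF φ (φ.length - 1) (by linarith) (qv_unsat h)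
  have h2 := Expr.cubic (vv (vars φ).length 0) (vv (vars φ).length 1) (vv (vars φ).length 2)
  have h3 := Expr.cubic (vv (vars φ).length 0) (vv (vars φ).length 1) (vv (vars φ).length 3)
  have h4 := Expr.negMono (V := Fin ((vars φ).length + 4)) (Finset.range 4)
    (fun i => vv (vars φ).length i) ⟨0, by simp⟩
  refine (((h1.add h2).add h3).add h4).congr fun x => ?_
  rw [fp_eq, val_raw]
  simp only [Finset.prod_range_succ, Finset.prod_range_zero]
  ring

/-- the quartic in the submodularity proof -/
def U4 (a b c d : Bool) : ℤ :=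
  -(a && b).toNat + (a && b && c).toNat + (a && b && d).toNat - (a && b && c && d).toNat -
    (a && c).toNat - (a && d).toNat - (b && c).toNat - (b && d).toNat

set_option maxRecDepth 100000 in
theorem U4_sub : ∀ a b c d a' b' c' d' : Bool,
    U4 (a && a') (b && b') (c && c') (d && d') + U4 (a || a') (b || b') (c || c') (d || d') ≤
    U4 a b c d + U4 a' b' c' d' := by
  decide

theorem U4_eq (a b c d : Bool) : (U4 a b c d : ℚ) = -(v01 a * v01 b) + v01 a * v01 b * v01 c +
    v01 a * v01 b * v01 d - v01 a * v01 b * v01 c * v01 d - v01 a * v01 c - v01 a * v01 d -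
    v01 b * v01 c - v01 b * v01 d := by
  cases a <;> cases b <;> cases c <;> cases d <;> simp [U4] <;> norm_num

theorem fp_val (φ : List (ℕ × ℕ × ℕ)) {N : ℕ} (hN : N = (vars φ).length)
    (x : Fin (N + 4) → Bool) : fp (N + 4) (collect (raw φ)) x =
      (U4 (x (vv N 0)) (x (vv N 1)) (x (vv N 2)) (x (vv N 3)) : ℚ) +
      (-(v01 (x (vv N 0)) * v01 (x (vv N 1)) * (φ.length - qv φ (fun i => x (vv N i)))) -
        (bigM φ : ℚ) * quad N (fun i => x (vv N i))) := by
  subst hN
  rw [fp_eq, val_raw, U4_eq]
  ring

theorem submodular_fp (φ : List (ℕ × ℕ × ℕ)) :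
    Submodular (fp ((vars φ).length + 4) (collect (raw φ))) := by
  intro x y
  have h1 := (expr_FF φ φ.length le_rfl (qv_le φ)).submodular x y
  rw [fp_val φ rfl, fp_val φ rfl, fp_val φ rfl, fp_val φ rfl]
  have h3 := U4_sub (x (vv (vars φ).length 0)) (x (vv (vars φ).length 1))
    (x (vv (vars φ).length 2)) (x (vv (vars φ).length 3)) (y (vv (vars φ).length 0))
    (y (vv (vars φ).length 1)) (y (vv (vars φ).length 2)) (y (vv (vars φ).length 3))
  have h4 : (U4 ((x ⊓ y) (vv (vars φ).length 0)) ((x ⊓ y) (vv (vars φ).length 1))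
      ((x ⊓ y) (vv (vars φ).length 2)) ((x ⊓ y) (vv (vars φ).length 3)) : ℚ) +
      (U4 ((x ⊔ y) (vv (vars φ).length 0)) ((x ⊔ y) (vv (vars φ).length 1))
      ((x ⊔ y) (vv (vars φ).length 2)) ((x ⊔ y) (vv (vars φ).length 3)) : ℚ) ≤
      (U4 (x (vv (vars φ).length 0)) (x (vv (vars φ).length 1))
      (x (vv (vars φ).length 2)) (x (vv (vars φ).length 3)) : ℚ) +
      (U4 (y (vv (vars φ).length 0)) (y (vv (vars φ).length 1))
      (y (vv (vars φ).length 2)) (y (vv (vars φ).length 3)) : ℚ) := by
    exact_mod_cast h3
  linarith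

/-- the pairs inside `Y` -/
def inner {V : Type} : List V → (V → Bool) → ℚ
  | [], _ => 0
  | y :: Y, x => inner Y x + ones Y x * v01 (x y)

theorem pairs_inner {V : Type} (a b : V) (Y : List V) (x : V → Bool) :
    pairs a b Y x = (v01 (x a) + v01 (x b)) * ones Y x + inner Y x := by
  induction Y with
  | nil => simp [pairs, inner]
  | cons y Y ih =>
    rw [pairs_cons, ih]
    simp only [inner, ones_cons]
    ring

theorem inner_congr {V : Type} {Y : List V} {u v : V → Bool} (h : ∀ z ∈ Y, u z = v z) :
    ones Y u = ones Y v ∧ inner Y u = inner Y v := by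
  induction Y with
  | nil => exact ⟨rfl, rfl⟩
  | cons z Z ih =>
    obtain ⟨h2, h3⟩ := ih fun z hz => h z (List.mem_cons_of_mem _ hz)
    have h4 := h z List.mem_cons_self
    constructor
    · rw [ones_cons, ones_cons, h2, h4]
    · simp only [inner]
      rw [h2, h3, h4]

theorem col_const : ∀ (b : Bool) (k : Fin 5), col (fun _ => b) k = b := by decide

/-- the point with first coordinates `a, b, c, d` and other coordinates given by `Y` -/
def pt (N : ℕ) (Y : ℕ → Bool) (a b c d : Bool) (i : Fin (N + 4)) : Bool :=
  if i.val = 0 then a else if i.val = 1 then b else if i.val = 2 then c else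
    if i.val = 3 then d else Y i.val

theorem not_expressible_of_sat {φ : List (ℕ × ℕ × ℕ)} (h : NAEn φ) :
    ¬ Expressible (fp ((vars φ).length + 4) (collect (raw φ))) := by
  intro hE
  obtain ⟨τ, hτ⟩ := h
  set N := (vars φ).length with hN
  set Y : ℕ → Bool := fun i => τ ((vars φ).getD (i - 4) 0) with hYdef
  have hYix : ∀ w ∈ vars φ, Y (ix φ w) = τ w := by
    intro w hw
    have h1 := List.idxOf_lt_length_iff.2 hw
    simp only [hYdef, ix, Nat.add_sub_cancel]
    rw [List.getD_eq_getElem _ _ h1, List.getElem_idxOf]
  have hval : ∀ (a b c d : Bool), (pt N Y a b c d) (vv N 0) = a ∧ (pt N Y a b c d) (vv N 1) = b ∧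
      (pt N Y a b c d) (vv N 2) = c ∧ (pt N Y a b c d) (vv N 3) = d ∧
      ∀ j < N, (pt N Y a b c d) (vv N (j + 4)) = Y (j + 4) := by
    intro a b c d
    refine ⟨?_, ?_, ?_, ?_, fun j hj => ?_⟩
    · rw [vv_of_lt (by omega)]; rfl
    · rw [vv_of_lt (by omega)]; rfl
    · rw [vv_of_lt (by omega)]; rfl
    · rw [vv_of_lt (by omega)]; rfl
    · rw [vv_of_lt (by omega)]; rfl
  obtain ⟨T, R, hf⟩ : ∃ T R : ℚ, ∀ a b c d : Bool,
      fp (N + 4) (collect (raw φ)) (pt N Y a b c d) = (U4 a b c d : ℚ) -
        (bigM φ : ℚ) * ((v01 a + v01 b) * T + R) := by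
    refine ⟨ones (YY N N) (pt N Y false false false false),
      inner (YY N N) (pt N Y false false false false), fun a b c d => ?_⟩
    obtain ⟨h0, h1, h2, h3, h4⟩ := hval a b c d
    rw [fp_val φ hN, quad_eq, pairs_inner, h0, h1, h2, h3]
    have h5 : ∀ z ∈ YY N N, (pt N Y a b c d) z = (pt N Y false false false false) z := by
      intro z hz
      obtain ⟨j, hj, rfl⟩ := mem_YY.1 hz
      rw [h4 j hj, (hval false false false false).2.2.2.2 j hj]
    obtain ⟨h6, h7⟩ := inner_congr h5
    rw [h6, h7]
    have h8 : qv φ (fun i => (pt N Y a b c d) (vv N i)) = φ.length := by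
      refine qv_sat fun t ht => ?_
      obtain ⟨m1, m2, m3⟩ := mem_vars ht
      have h9 : ∀ w ∈ vars φ, (pt N Y a b c d) (vv N (ix φ w)) = τ w := by
        intro w hw
        rw [← hYix w hw]
        exact h4 _ (List.idxOf_lt_length_iff.2 hw)
      simp only [h9 _ m1, h9 _ m2, h9 _ m3]
      exact hτ t ht
    rw [h8]
    ring
  have h5 := five hE ![pt N Y true true false false, pt N Y true false true false,
    pt N Y false true true false, pt N Y true false false true, pt N Y false true false true]
  have hrow : ∀ k : Fin 5, (fun i => col (fun j => (![pt N Y true true false false,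
      pt N Y true false true false, pt N Y false true true false, pt N Y true false false true,
      pt N Y false true false true] : Fin 5 → Fin (N + 4) → Bool) j i) k) =
      (![pt N Y true false false false, pt N Y false true false false,
      pt N Y false false true true, pt N Y true true true false, pt N Y true true false true] :
      Fin 5 → Fin (N + 4) → Bool) k := by
    intro k
    funext i
    by_cases h0 : i.val = 0
    · have : ∀ a b c d, pt N Y a b c d i = a := fun a b c d => by simp [pt, h0]
      have e : (fun j => (![pt N Y true true false false,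
        pt N Y true false true false, pt N Y false true true false, pt N Y true false false true,
        pt N Y false true false true] : Fin 5 → Fin (N + 4) → Bool) j i) =
        ![true, true, false, true, false] := by
        funext j
        fin_cases j <;> exact this _ _ _ _
      rw [e]
      fin_cases k <;> exact (this _ _ _ _).symm
    · by_cases h1 : i.val = 1
      · have : ∀ a b c d, pt N Y a b c d i = b := fun a b c d => by simp [pt, h1]
        have e : (fun j => (![pt N Y true true false false,
          pt N Y true false true false, pt N Y false true true false, pt N Y true false false true,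
          pt N Y false true false true] : Fin 5 → Fin (N + 4) → Bool) j i) =
          ![true, false, true, false, true] := by
          funext j
          fin_cases j <;> exact this _ _ _ _
        rw [e]
        fin_cases k <;> exact (this _ _ _ _).symm
      · by_cases h2 : i.val = 2
        · have : ∀ a b c d, pt N Y a b c d i = c := fun a b c d => by simp [pt, h2]
          have e : (fun j => (![pt N Y true true false false,
            pt N Y true false true false, pt N Y false true true false,
            pt N Y true false false true,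
            pt N Y false true false true] : Fin 5 → Fin (N + 4) → Bool) j i) =
            ![false, true, true, false, false] := by
            funext j
            fin_cases j <;> exact this _ _ _ _
          rw [e]
          fin_cases k <;> exact (this _ _ _ _).symm
        · by_cases h3 : i.val = 3
          · have : ∀ a b c d, pt N Y a b c d i = d := fun a b c d => by simp [pt, h3]
            have e : (fun j => (![pt N Y true true false false,
              pt N Y true false true false, pt N Y false true true false,
              pt N Y true false false true,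
              pt N Y false true false true] : Fin 5 → Fin (N + 4) → Bool) j i) =
              ![false, false, false, true, true] := by
              funext j
              fin_cases j <;> exact this _ _ _ _
            rw [e]
            fin_cases k <;> exact (this _ _ _ _).symm
          · have : ∀ a b c d, pt N Y a b c d i = Y i.val := fun a b c d => by
              simp [pt, h0, h1, h2, h3]
            have e : (fun j => (![pt N Y true true false false,
              pt N Y true false true false, pt N Y false true true false,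
              pt N Y true false false true,
              pt N Y false true false true] : Fin 5 → Fin (N + 4) → Bool) j i) =
              fun _ => Y i.val := by
              funext j
              fin_cases j <;> exact this _ _ _ _
            rw [e, col_const]
            fin_cases k <;> exact (this _ _ _ _).symm
  rw [Finset.sum_congr rfl fun k _ => congrArg _ (hrow k), Fin.sum_univ_five,
    Fin.sum_univ_five] at h5
  simp only [Matrix.cons_val] at h5
  rw [hf, hf, hf, hf, hf, hf, hf, hf, hf, hf] at h5
  simp only [U4_eq, v01_true, v01_false] at h5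
  linarith

end Pool.Agent.Q231.EB
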